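import Mathlib
import Pool.Agent.X90.DD.Small

/-!
# MP_154526_nt: linear relations between multiple zeta values whose indices have fixed parts

Patterns are indices whose entries are fixed numbers or linear forms `b + u_1 s_1 + ⋯ + u_k s_k` in variables, for example
`(s_1, 3)`, `(3, s_1, 2, s_1 + s_2)`, `(2, 1, 1, s_2 + 4)`, `(2, 2)`. The fixed part of a pattern consists of the fixed
entries in front of the first entry that depends on the variables.

Let `w_1, …, w_r` be patterns whose fixed parts have weight at most `W`. For large `N` and all but `K N ^ (k - 1)` of the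
tuples `s ∈ [N, κ N] ^ k`: each integer linear relation `∑ c_i ζ(w_i(s)) = 0` between values of one weight with
`|c_i| ≤ C ^ N` is a consequence of the stuffle product and of the linear relations between multiple zeta values of one
weight `n ≤ W`. Here `C` is arbitrary and `K` does not depend on `C`. For `W ≤ 4` the second kind of relations reduces to
`ζ(2,1) = ζ(3)`, `4 ζ(3,1) = ζ(4)`, `4 ζ(2,2) = 3 ζ(4)`, `ζ(2,1,1) = ζ(4)`, which are double shuffle relations, and the
result is unconditional.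

The starting results treat indices with a large first argument (patterns without a fixed part). Proof
(`Pool/Agent/X90/DC`, `Pool/Agent/X90/DD`): the values with a fixed part are integer combinations of products
`ζ(p) ζ(v(s))`, where `p` is an initial segment of the fixed part and `v` a pattern without fixed part; the numbers `ζ(p)`
are replaced by a `ℚ`-basis of their span and the elements of the basis are eliminated one by one with the stuffle
product at several tuples in general position.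
-/

set_option autoImplicit false

namespace Pool.Agent.Results.MP_154526_nt.FixedPrefixRelations

/-- `trunc [s_1, ..., s_r] m` is the sum of `∏ k_i ^ (-s_i)` over `m > k_1 > ... > k_r ≥ 1` -/
noncomputable def trunc : List ℕ → ℕ → ℝ
  | [], _ => 1
  | s :: l, m => ∑ j ∈ Finset.Ico 1 m, trunc l j / (j : ℝ) ^ s

/-- the multiple zeta value `ζ(s_1, ..., s_r)`, `s_1` belongs to the largest variable -/
noncomputable def mzv : List ℕ → ℝ
  | [] => 1
  | s :: l => ∑' k : ℕ, trunc l (k + 1) / ((k + 1 : ℕ) : ℝ) ^ s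

/-- admissible indices: `(s_1, ..., s_r)` with `r ≥ 1`, `s_1 ≥ 2` and all `s_i ≥ 1` -/
def AdmissibleIndex : List ℕ → Prop
  | [] => False
  | s :: l => 2 ≤ s ∧ ∀ t ∈ l, 1 ≤ t

/-- the list of the indices in the stuffle (series) product of two indices -/
def stuffles : List ℕ → List ℕ → List (List ℕ)
  | [], l => [l]
  | i :: k, [] => [i :: k]
  | i :: k, j :: l => (stuffles k (j :: l)).map (i :: ·) ++ (stuffles (i :: k) l).map (j :: ·) ++
      (stuffles k l).map ((i + j) :: ·)
termination_by k l => k.length + l.length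

/-- `Z` has the stuffle product: `Z(k) Z(l) = ∑ Z(m)` over the indices `m` of the stuffle product
of `k` and `l`, for all admissible indices `k` and `l` -/
def HasStuffleProduct {A : Type} [CommRing A] (Z : List ℕ → A) : Prop :=
  ∀ k l : List ℕ, AdmissibleIndex k → AdmissibleIndex l →
    Z k * Z l = ((stuffles k l).map Z).sum

/-- `Z` has the linear relations of weight at most `W`: for `n ≤ W`, admissible indices
`p_1, …, p_m` of weight `n` and integers `a_i`, `∑ a_i ζ(p_i) = 0` implies `∑ a_i Z(p_i) = 0` -/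
def HasLinearRelations {A : Type} [CommRing A] (W : ℕ) (Z : List ℕ → A) : Prop :=
  ∀ n ≤ W, ∀ (m : ℕ) (p : Fin m → List ℕ), (∀ i, AdmissibleIndex (p i) ∧ (p i).sum = n) →
    ∀ a : Fin m → ℤ, ∑ i, (a i : ℝ) * mzv (p i) = 0 → ∑ i, (a i : A) * Z (p i) = 0

/-- a pattern in the variables `s_1, …, s_k`: a nonempty list of letters `(b, u)`, different from
`(0, 0)`, the first letter is also different from `(1, 0)` -/
def Pattern {k : ℕ} (w : List (ℕ × (Fin k → ℕ))) : Prop :=
  w ≠ [] ∧ (∀ u ∈ w.head?, u.2 ≠ 0 ∨ 2 ≤ u.1) ∧ ∀ u ∈ w, u.2 ≠ 0 ∨ 1 ≤ u.1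

/-- the index of a pattern: the letter `(b, u)` becomes `b + ∑ u_j s_j` -/
def index {k : ℕ} (s : Fin k → ℕ) (w : List (ℕ × (Fin k → ℕ))) : List ℕ :=
  w.map fun u => u.1 + ∑ j, u.2 j * s j

/-- the list of the numbers `b` of the letters `(b, 0)` in front of the first letter `(b, u)` with
`u ≠ 0` -/
def fixedPart {k : ℕ} : List (ℕ × (Fin k → ℕ)) → List ℕ
  | [] => []
  | u :: w => open Classical in if u.2 = 0 then u.1 :: fixedPart w else []

/-- there are integers `c_i` of absolute value at most `H`, such that the indices `w_i(s)` with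
`c_i ≠ 0` have the same weight and `∑ c_i ζ(w_i(s)) = 0`, and a function `Z` from the indices to a
commutative ring, with the stuffle product and the linear relations of weight at most `W`, such that
`∑ c_i Z(w_i(s)) ≠ 0` -/
def Exceptional {k r : ℕ} (W : ℕ) (H : ℝ) (w : Fin r → List (ℕ × (Fin k → ℕ)))
    (s : Fin k → ℕ) : Prop :=
  ∃ (n : ℕ) (c : Fin r → ℤ), (∀ i, |(c i : ℝ)| ≤ H) ∧
    (∀ i, c i ≠ 0 → (index s (w i)).sum = n) ∧ ∑ i, (c i : ℝ) * mzv (index s (w i)) = 0 ∧
    ∃ (A : Type) (_ : CommRing A) (Z : List ℕ → A), HasStuffleProduct Z ∧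
      HasLinearRelations W Z ∧ ∑ i, (c i : A) * Z (index s (w i)) ≠ 0

open Finset Pool.Agent.X90.DC
open Pool.Agent.X90.DB (Ad ix ex ex_ne ex_nil)

theorem trunc_eq : ∀ l m, trunc l m = Pool.Agent.Y760.ZG.hr l m := by
  intro l
  induction l with
  | nil => intro m; rw [trunc, Pool.Agent.Y760.ZG.hr]
  | cons s l ih =>
    intro m
    rw [trunc, Pool.Agent.Y760.ZG.hr]
    exact Finset.sum_congr rfl fun j _ => by rw [ih]

theorem mzv_eq : ∀ l, mzv l = Pool.Agent.Y760.ZG.mz l := by
  intro l
  cases l with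
  | nil => rw [mzv, Pool.Agent.Y760.ZG.mz]
  | cons s l =>
    rw [mzv, Pool.Agent.Y760.ZG.mz]
    exact tsum_congr fun k => by rw [trunc_eq]

theorem stuffles_eq : ∀ u v, stuffles u v = Pool.Agent.Y760.ZF.sti u v := by
  intro u v
  induction u, v using Pool.Agent.Y760.ZF.sti.induct with
  | case1 v => rw [stuffles, Pool.Agent.Y760.ZF.sti]
  | case2 x u => rw [stuffles, Pool.Agent.Y760.ZF.sti]
  | case3 x u y v ih1 ih2 ih3 => rw [stuffles, Pool.Agent.Y760.ZF.sti, ih1, ih2, ih3]

theorem adm_iff : ∀ u, AdmissibleIndex u ↔ Ad u := by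
  intro u
  cases u <;> exact Iff.rfl

theorem fixedPart_eq {k : ℕ} : ∀ w : List (ℕ × (Fin k → ℕ)), fpx w = fixedPart w := by
  intro w
  induction w with
  | nil => rfl
  | cons u w ih =>
    rw [fixedPart, fpx, ih]

theorem has_stuffle {A : Type} [CommRing A] {Z : List ℕ → A} (h : HasStuffleProduct Z) :
    ∀ u v, Ad u → Ad v → Z u * Z v = ((Pool.Agent.Y760.ZF.sti u v).map Z).sum := by
  intro u v hu hv
  rw [h u v ((adm_iff u).2 hu) ((adm_iff v).2 hv), stuffles_eq]

theorem rel_finset {A : Type} [CommRing A] {W : ℕ} {Z : List ℕ → A} (h : HasLinearRelations W Z)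
    {n : ℕ} (hn : n ≤ W) {ι : Type} (S : Finset ι) (p : ι → List ℕ)
    (hp : ∀ j ∈ S, AdmissibleIndex (p j) ∧ (p j).sum = n) (a : ι → ℤ)
    (h0 : ∑ j ∈ S, (a j : ℝ) * mzv (p j) = 0) : ∑ j ∈ S, (a j : A) * Z (p j) = 0 := by
  classical
  have e : ∀ {B : Type} [AddCommMonoid B] (f : ι → B), ∑ i : Fin S.card, f (S.equivFin.symm i).1 =
      ∑ j ∈ S, f j := by
    intro B _ f
    rw [S.equivFin.symm.sum_comp fun j : S => f j.1]
    exact sum_coe_sort S f
  have h1 := h n hn S.card (fun i => p (S.equivFin.symm i).1)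
    (fun i => hp _ (S.equivFin.symm i).2) (fun i => a (S.equivFin.symm i).1)
    ((e fun j => (a j : ℝ) * mzv (p j)).trans h0)
  exact (e fun j => (a j : A) * Z (p j)).symm.trans h1

/-- the linear relations of weight at most four -/
theorem weight_four {A : Type} [CommRing A] [Algebra ℚ A] (Z : List ℕ → A)
    (h21 : Z [2, 1] = Z [3]) (h31 : 4 * Z [3, 1] = Z [4]) (h22 : 4 * Z [2, 2] = 3 * Z [4])
    (h211 : Z [2, 1, 1] = Z [4]) : HasLinearRelations 4 Z := by
  intro n hn m p hp a h0
  have hc : (4 : A) * algebraMap ℚ A (1 / 4) = 1 := by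
    have h1 := map_mul (algebraMap ℚ A) 4 (1 / 4)
    have h2 : (4 : ℚ) * (1 / 4) = 1 := by norm_num
    rw [h2, map_one, map_ofNat] at h1
    exact h1.symm
  have h1 : ∀ i, ∃ l : ℚ, mzv (p i) = l * mzv [n] ∧ Z (p i) = algebraMap ℚ A l * Z [n] := by
    intro i
    obtain ⟨h2, h3⟩ := hp i
    have h4 := Pool.Agent.X90.DD.two_le_sum ((adm_iff _).1 h2)
    have hself : p i = [n] → ∃ l : ℚ, mzv (p i) = l * mzv [n] ∧
        Z (p i) = algebraMap ℚ A l * Z [n] := fun h => ⟨1, by rw [h, Rat.cast_one, one_mul], by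
      rw [h, map_one, one_mul]⟩
    have h5 : n = 2 ∨ n = 3 ∨ n = 4 := by omega
    rcases h5 with rfl | rfl | rfl
    · exact hself (Pool.Agent.X90.DD.ad_two ((adm_iff _).1 h2) h3)
    · rcases Pool.Agent.X90.DD.ad_three ((adm_iff _).1 h2) h3 with h6 | h6
      · exact hself h6
      · refine ⟨1, ?_, ?_⟩
        · rw [h6, mzv_eq, mzv_eq, Pool.Agent.X90.DD.mz_21, Rat.cast_one, one_mul]
        · rw [h6, h21, map_one, one_mul]
    · rcases Pool.Agent.X90.DD.ad_four ((adm_iff _).1 h2) h3 with h6 | h6 | h6 | h6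
      · exact hself h6
      · refine ⟨1 / 4, ?_, ?_⟩
        · rw [h6, mzv_eq, mzv_eq]
          have := Pool.Agent.X90.DD.mz_31
          push_cast
          linarith
        · rw [h6]
          calc Z [3, 1] = (4 * algebraMap ℚ A (1 / 4)) * Z [3, 1] := by rw [hc, one_mul]
            _ = algebraMap ℚ A (1 / 4) * (4 * Z [3, 1]) := by ring
            _ = _ := by rw [h31]
      · refine ⟨3 / 4, ?_, ?_⟩
        · rw [h6, mzv_eq, mzv_eq]
          have := Pool.Agent.X90.DD.mz_22
          push_cast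
          linarith
        · rw [h6]
          have h7 : (3 / 4 : ℚ) = 3 * (1 / 4) := by norm_num
          calc Z [2, 2] = (4 * algebraMap ℚ A (1 / 4)) * Z [2, 2] := by rw [hc, one_mul]
            _ = algebraMap ℚ A (1 / 4) * (4 * Z [2, 2]) := by ring
            _ = algebraMap ℚ A (3 / 4) * Z [4] := by
              rw [h22, h7, map_mul, map_ofNat]
              ring
      · refine ⟨1, ?_, ?_⟩
        · rw [h6, mzv_eq, mzv_eq, Pool.Agent.X90.DD.mz_211, Rat.cast_one, one_mul]
        · rw [h6, h211, map_one, one_mul]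
  choose l hl1 hl2 using h1
  rcases Nat.eq_zero_or_pos m with hm | hm
  · subst hm
    exact Fintype.sum_empty _
  have hn2 : 2 ≤ n := by
    obtain ⟨h2, h3⟩ := hp ⟨0, hm⟩
    have h4 := Pool.Agent.X90.DD.two_le_sum ((adm_iff _).1 h2)
    omega
  have h2 : (((∑ i, (a i : ℚ) * l i : ℚ) : ℝ)) * mzv [n] = 0 := by
    rw [← h0]
    push_cast
    rw [sum_mul]
    refine sum_congr rfl fun i _ => ?_
    rw [hl1 i]
    ring
  have h3 : ∑ i, (a i : ℚ) * l i = 0 := by
    rcases mul_eq_zero.1 h2 with h | h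
    · exact_mod_cast h
    · have := Pool.Agent.X90.DD.mz_pos hn2
      rw [mzv_eq] at h
      linarith
  calc ∑ i, (a i : A) * Z (p i) = algebraMap ℚ A (∑ i, (a i : ℚ) * l i) * Z [n] := by
        rw [map_sum, sum_mul]
        refine sum_congr rfl fun i _ => ?_
        rw [hl2 i, map_mul, map_intCast]
        ring
    _ = 0 := by rw [h3, map_zero, zero_mul]

/-- **Linear relations with fixed parts.** (1) Let `w_1, …, w_r` be patterns in `k` variables with fixed parts of weight
at most `W`, and `κ` a natural number. There is `K` such that for all `C` and all sufficiently large `N`: for all but at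
most `K N ^ (k - 1)` of the tuples `s ∈ [N, κ N] ^ k`, each integer linear relation `∑ c_i ζ(w_i(s)) = 0` with
`|c_i| ≤ C ^ N` between values of one weight satisfies `∑ c_i Z(w_i(s)) = 0` for all functions `Z` from the indices to a
commutative ring that have the stuffle product and the linear relations of weight at most `W`. (2) Functions `Z` to a
`ℚ`-algebra with `Z(2,1) = Z(3)`, `4 Z(3,1) = Z(4)`, `4 Z(2,2) = 3 Z(4)`, `Z(2,1,1) = Z(4)` have the linear relations of
weight at most four. -/
theorem result :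
    (∀ (k r κ W : ℕ) (w : Fin r → List (ℕ × (Fin k → ℕ))), (∀ i, Pattern (w i)) →
      (∀ i, (fixedPart (w i)).sum ≤ W) →
      ∃ K : ℕ, ∀ C : ℝ, ∃ N0 : ℕ, ∀ N : ℕ, N0 ≤ N →
        {s : Fin k → ℕ | (∀ j, N ≤ s j ∧ s j ≤ κ * N) ∧ Exceptional W (C ^ N) w s}.ncard ≤
          K * N ^ (k - 1)) ∧
    (∀ (A : Type) [CommRing A] [Algebra ℚ A] (Z : List ℕ → A), Z [2, 1] = Z [3] →
      4 * Z [3, 1] = Z [4] → 4 * Z [2, 2] = 3 * Z [4] → Z [2, 1, 1] = Z [4] →
      HasLinearRelations 4 Z) := by
  classical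
  refine ⟨fun k r κ W w hw hW => ?_, fun A _ _ Z h1 h2 h3 h4 => weight_four Z h1 h2 h3 h4⟩
  obtain ⟨m, idx, cc, p, v, hpv, hexp, K, hK⟩ := lin k r w (fun i => (hw i).2) κ
  refine ⟨K, fun C => ?_⟩
  obtain ⟨N0, hN0⟩ := hK C
  refine ⟨N0 + 2, fun N hN => ?_⟩
  have hfin : {s : Fin k → ℕ | (∀ j, N ≤ s j ∧ s j ≤ κ * N) ∧
      Exceptional W (C ^ N) w s}.Finite := by
    refine (Fintype.piFinset fun _ : Fin k => Finset.Icc N (κ * N)).finite_toSet.subset ?_
    rintro s ⟨hs, -⟩
    rw [Finset.mem_coe, Fintype.mem_piFinset]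
    exact fun j => Finset.mem_Icc.2 (hs j)
  rw [Set.ncard_eq_toFinset_card _ hfin]
  refine hN0 N (by omega) hfin.toFinset fun s hs => ?_
  rw [Set.Finite.mem_toFinset] at hs
  obtain ⟨hs, n, c, hcH, hcn, hc0, A, _, Z, hZ1, hZ2, hZ3⟩ := hs
  have hs2 : ∀ j, 2 ≤ s j := fun j => le_trans (by omega) (hs j).1
  have hix : ∀ i, index s (w i) = ix s (w i) := fun i => rfl
  refine ⟨hs, c, hcH, by simpa only [hix, mzv_eq] using hc0, ?_⟩
  by_contra hcon
  push Not at hcon
  apply hZ3
  have h1 : ∀ i, Z (index s (w i)) = ex Z (ix s (w i)) := by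
    intro i
    rw [hix]
    refine (ex_ne Z fun h0 => (hw i).1 ?_).symm
    have h0' : (w i).map (fun u => u.1 + ∑ j, u.2 j * s j) = [] := h0
    rwa [List.map_eq_nil_iff] at h0'
  simp only [h1]
  rw [hexp A Z (has_stuffle hZ1) s hs2 c]
  rw [← sum_fiberwise_of_maps_to (s := univ) (t := univ.image fun j => ix s (v j))
    (g := fun j => ix s (v j)) (fun j _ => mem_image_of_mem _ (mem_univ j))]
  refine sum_eq_zero fun u _ => ?_
  -- the part of the word `u`
  have h2 := hcon u
  have h3 : ∑ j with ix s (v j) = u, ((c (idx j) * cc j : ℤ) : A) *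
      (ex Z (p j) * ex Z (ix s (v j))) =
      (∑ j with ix s (v j) = u ∧ c (idx j) ≠ 0, ((c (idx j) * cc j : ℤ) : A) * ex Z (p j)) *
        ex Z u := by
    rw [sum_mul, ← filter_filter, sum_filter (p := fun j => c (idx j) ≠ 0)]
    refine sum_congr rfl fun j hj => ?_
    rw [mem_filter] at hj
    rw [hj.2]
    split_ifs with h
    · ring
    · push Not at h
      rw [h]
      simp
  have h4 : ∑ j with ix s (v j) = u ∧ c (idx j) ≠ 0, ((c (idx j) * cc j : ℤ) : ℝ) *
      mzv (p j) = 0 := by
    rw [← h2, ← filter_filter, sum_filter (p := fun j => c (idx j) ≠ 0)]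
    refine sum_congr rfl fun j hj => ?_
    split_ifs with h
    · rw [mzv_eq]
    · push Not at h
      rw [h]
      simp
  rw [h3]
  have hwt : ∀ j ∈ univ.filter fun j => ix s (v j) = u ∧ c (idx j) ≠ 0,
      (p j).sum = n - u.sum ∧ (p j).sum ≤ W := by
    intro j hj
    rw [mem_filter] at hj
    have g1 := (hpv j).2.2.2 s
    have g2 := hcn (idx j) hj.2.2
    rw [hix] at g2
    rw [hj.2.1] at g1
    refine ⟨by omega, ?_⟩
    obtain ⟨t, ht⟩ := (hpv j).2.1
    have g3 := hW (idx j)
    rw [← fixedPart_eq, ← ht, List.sum_append] at g3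
    omega
  rcases (univ.filter fun j => ix s (v j) = u ∧ c (idx j) ≠ 0).eq_empty_or_nonempty with he | he
  · rw [he]
    simp
  obtain ⟨j0, hj0⟩ := he
  have hnW : n - u.sum ≤ W := by
    have := hwt j0 hj0
    omega
  rcases Nat.eq_zero_or_pos (n - u.sum) with hq | hq
  · have h5 : ∀ j ∈ univ.filter fun j => ix s (v j) = u ∧ c (idx j) ≠ 0, p j = [] := by
      intro j hj
      rcases (hpv j).1 with h | h
      · exact h
      · have := Pool.Agent.X90.DD.two_le_sum h
        have := (hwt j hj).1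
        omega
    have h6 : ∑ j with ix s (v j) = u ∧ c (idx j) ≠ 0, (c (idx j) * cc j) = 0 := by
      have h7 : ∑ j with ix s (v j) = u ∧ c (idx j) ≠ 0, ((c (idx j) * cc j : ℤ) : ℝ) = 0 := by
        rw [← h4]
        refine sum_congr rfl fun j hj => ?_
        rw [h5 j hj, mzv, mul_one]
      exact_mod_cast h7
    have h8 : ∑ j with ix s (v j) = u ∧ c (idx j) ≠ 0, ((c (idx j) * cc j : ℤ) : A) *
        ex Z (p j) = ((∑ j with ix s (v j) = u ∧ c (idx j) ≠ 0, (c (idx j) * cc j) : ℤ) : A) := by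
      rw [Int.cast_sum]
      refine sum_congr rfl fun j hj => ?_
      rw [h5 j hj, ex_nil, mul_one]
    rw [h8, h6, Int.cast_zero, zero_mul]
  · have h5 : ∀ j ∈ univ.filter fun j => ix s (v j) = u ∧ c (idx j) ≠ 0,
        AdmissibleIndex (p j) ∧ (p j).sum = n - u.sum := by
      intro j hj
      refine ⟨(adm_iff _).2 ?_, (hwt j hj).1⟩
      rcases (hpv j).1 with h | h
      · have := (hwt j hj).1
        rw [h, List.sum_nil] at this
        omega
      · exact h
    have h6 := rel_finset hZ2 hnW _ p h5 (fun j => c (idx j) * cc j) h4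
    have h7 : ∑ j with ix s (v j) = u ∧ c (idx j) ≠ 0, ((c (idx j) * cc j : ℤ) : A) *
        ex Z (p j) = ∑ j with ix s (v j) = u ∧ c (idx j) ≠ 0, ((c (idx j) * cc j : ℤ) : A) *
        Z (p j) := by
      refine sum_congr rfl fun j hj => ?_
      rw [ex_ne Z (Pool.Agent.X90.DB.ad_ne ((adm_iff _).1 (h5 j hj).1))]
    rw [h7, h6, zero_mul]

end Pool.Agent.Results.MP_154526_nt.FixedPrefixRelations
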