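import Mathlib
import Pool.Agent.X142.MZ.Poly

set_option autoImplicit false

namespace Pool.Agent.Results.MP_154526_nt.HurwitzArguments

open NumberField MvPolynomial

/-- The multiple Hurwitz zeta function
`ζ(s₁,…,s_r; z) = Σ_{0 ≤ k₁ < k₂ < … < k_r} Π (z + k_i)^{-s_i}`, defined by summing over `k₁` last:
`ζ(s₁,…,s_r; z) = Σ_{n ≥ 0} (z+n)^{-s₁} ζ(s₂,…,s_r; z+n+1)`. At `z = 1` it is the multiple zeta value. -/
noncomputable def mhz : List ℕ → ℂ → ℂ
  | [], _ => 1
  | s :: w, z => ∑' n : ℕ, ((z + n) ^ s)⁻¹ * mhz w (z + n + 1)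

/-- Admissible indices: positive entries, the last entry is not `1`; the empty index is admissible. -/
def Adm (s : List ℕ) : Prop := (∀ a ∈ s, 1 ≤ a) ∧ s.getLast? ≠ some 1

/-- `HeightLe F T x`: `x = a / c` with algebraic integers `a`, `c` of `F`, all of whose conjugates are at
most `T` in absolute value. -/
def HeightLe (F : Type) [Field F] [NumberField F] (T : ℝ) (x : F) : Prop :=
  ∃ a c : 𝓞 F, c ≠ 0 ∧ (∀ φ : F →+* ℂ, ‖φ a‖ ≤ T ∧ ‖φ c‖ ≤ T) ∧ x = a / c

/-- The stuffle product of two indices, as a list of indices: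
`(a,u) * (b,v) = (a, u * (b,v)) + (b, (a,u) * v) + (a+b, u * v)`. -/
def stuffle : List ℕ → List ℕ → List (List ℕ)
  | [], v => [v]
  | a :: u, [] => [a :: u]
  | a :: u, b :: v => (stuffle u (b :: v)).map (List.cons a) ++ ((stuffle (a :: u) v).map (List.cons b) ++
      (stuffle u v).map (List.cons (a + b)))
termination_by u v => u.length + v.length

/-- The ideal of the polynomial ring in variables indexed by indices generated by the stuffle relations
between admissible indices (and by `X_() - 1`). -/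
noncomputable def stuffleIdeal (R : Type) [CommRing R] : Ideal (MvPolynomial (List ℕ) R) :=
  Ideal.span ({X [] - 1} ∪ {p | ∃ u v, Adm u ∧ Adm v ∧ p = X u * X v - ((stuffle u v).map X).sum})

lemma mhz_eq : ∀ (w : List ℕ) (z : ℂ), mhz w z = Pool.Agent.X142.MZ.mhz w z
  | [], _ => rfl
  | s :: w, z => by
    rw [mhz, Pool.Agent.X142.MZ.mhz]
    exact tsum_congr fun n => by rw [mhz_eq w]

lemma stuffle_eq : ∀ u v : List ℕ, stuffle u v = Pool.Agent.X142.MZ.stuffle u v
  | [], v => by rw [stuffle, Pool.Agent.X142.MZ.stuffle]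
  | a :: u, [] => by rw [stuffle, Pool.Agent.X142.MZ.stuffle]
  | a :: u, b :: v => by
    rw [stuffle, Pool.Agent.X142.MZ.stuffle, stuffle_eq u (b :: v), stuffle_eq (a :: u) v, stuffle_eq u v]
termination_by u v => u.length + v.length

lemma ideal_eq (R : Type) [CommRing R] : stuffleIdeal R = Pool.Agent.X142.MZ.J R := by
  unfold stuffleIdeal Pool.Agent.X142.MZ.J
  simp only [stuffle_eq]
  rfl

/-- At almost all arguments every near relation of polynomial height between multiple zeta values is a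
consequence of the stuffle product. -/
theorem result (M : Finset (List ℕ →₀ ℕ)) (hM : ∀ d ∈ M, ∀ s ∈ d.support, Adm s) (L : Set ℂ)
    (hL : IsCompact L) (hL0 : ∀ z ∈ L, ∀ n : ℕ, z ≠ -n) (m : ℕ) (A ε : ℝ) (hε : 0 < ε) :
    ∃ B C₁ T₀ : ℝ, ∀ (F : Type) [Field F] [NumberField F], Module.finrank ℚ F ≤ m →
      ∀ (ι : F →+* ℂ) (T : ℝ), T₀ ≤ T →
      ∃ E : Finset F, (E.card : ℝ) ≤ C₁ * T ^ ε ∧ ∀ x : F, ι x ∈ L → HeightLe F T x → x ∉ E →
        ∀ P : MvPolynomial (List ℕ) (𝓞 F), P.support ⊆ M →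
          (∀ d (φ : F →+* ℂ), ‖φ (P.coeff d : 𝓞 F)‖ ≤ T ^ A) →
          ‖eval₂ (ι.comp (algebraMap (𝓞 F) F)) (fun s => mhz s (ι x)) P‖ ≤ T ^ (-B) →
          P ∈ stuffleIdeal (𝓞 F) := by
  obtain ⟨B, C₁, T₀, H⟩ := Pool.Agent.X142.MZ.polyJ M hM L hL hL0 m A ε hε
  refine ⟨B, C₁, T₀, fun F _ _ hF ι T hT => ?_⟩
  obtain ⟨E, hE, h⟩ := H F hF ι T hT
  refine ⟨E, hE, fun x hxL hx hxE P hPM hP hsmall => ?_⟩
  rw [ideal_eq]
  refine h x hxL hx hxE P hPM hP ?_
  have h1 : (fun s => Pool.Agent.X142.MZ.mhz s (ι x)) = fun s => mhz s (ι x) :=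
    funext fun s => (mhz_eq s _).symm
  rw [h1]
  exact hsmall

end Pool.Agent.Results.MP_154526_nt.HurwitzArguments
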