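import Pool.Agent.Results.MP_154526_nt.FixedPrefixRelations
import Pool.Agent.X174.WinInd

/-!
# Linear relations between multiple zeta values for ALL indices in cubes around thin sequences of points

Patterns are indices whose entries are fixed numbers or linear forms `b + u_1 s_1 + ⋯ + u_k s_k` in variables, for example
`(s_1, 3)`, `(3, s_1, 2, s_1 + s_2)`, `(2, 1, 1, s_2 + 4)`. Let `v ≥ 1` be a sequence of exponent of convergence at most `τ`
(for `v_i = (i + 1) ^ a` this is `1 / a`, for `v_i = b ^ i` it is `0`) and `ρ < 1`. There is ONE set `E ⊂ ℝ^k` of Hausdorff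
dimension at most `(k - 1 + τ) / (1 - ρ)` such that for each `x` outside `E` with positive coordinates, all patterns
`w_1, …, w_r`, whose fixed parts have weight at most `W`, and all `C`, for all but finitely many `i`: for ALL natural numbers
`s_1, …, s_k` with `|s_j - x_j v_i| ≤ v_i ^ ρ` each integer linear relation `∑ c_l ζ(w_l(s)) = 0` between values of one
weight with `|c_l| ≤ C ^ v_i` is a consequence of the stuffle product and of the linear relations between multiple zeta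
values of one weight `n ≤ W`. For `W ≤ 4` the second kind of relations are known double shuffle relations, and the result is
unconditional.

The number of exceptions is from our result `FixedPrefixRelations`.
-/

set_option autoImplicit false

namespace Pool.Agent.Results.MP_154526_nt.IndicesInCubes

open FixedPrefixRelations (mzv HasStuffleProduct HasLinearRelations Pattern index fixedPart Exceptional)

/-- the exponent of convergence of the sequence `v` is at most `τ` -/
def ExpLe (v : ℕ → ℝ) (τ : ℝ) : Prop := ∀ t : ℝ, τ < t → Summable (fun n : ℕ => (v n) ^ (-t))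

/-- **Theorem.** (1) Let `k ≥ 1`. For every sequence `v ≥ 1` of exponent of convergence at most `τ ≥ 0` and every `ρ < 1`
there is a set `E ⊂ ℝ^k` of Hausdorff dimension at most `(k - 1 + τ) / (1 - ρ)` such that for each `x` outside `E` with
positive coordinates, all patterns `w_1, …, w_r` in `k` variables with fixed parts of weight at most `W` and all `C ≥ 1`, for
all but finitely many `i`, ALL `s ∈ ℕ^k` with `|s_j - x_j v_i| ≤ v_i ^ ρ` have the property: each integer linear relation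
`∑ c_l ζ(w_l(s)) = 0` with `|c_l| ≤ C ^ v_i` between values of one weight satisfies `∑ c_l Z(w_l(s)) = 0` for all functions
`Z` from the indices to a commutative ring that have the stuffle product and the linear relations of weight at most `W`.
(2) Functions `Z` to a `ℚ`-algebra with `Z(2,1) = Z(3)`, `4 Z(3,1) = Z(4)`, `4 Z(2,2) = 3 Z(4)`, `Z(2,1,1) = Z(4)` have the
linear relations of weight at most four. The sequences `v_i = (i + 1) ^ a` and `v_i = b ^ i` have exponent of convergence at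
most `1 / a` and `0`. -/
theorem result :
    (∀ (k : ℕ), 1 ≤ k → ∀ (v : ℕ → ℝ) (τ ρ : ℝ), (∀ i, 1 ≤ v i) → 0 ≤ τ → ExpLe v τ → ρ < 1 →
      ∃ E : Set (Fin k → ℝ), dimH E ≤ ENNReal.ofReal (((k : ℝ) - 1 + τ) / (1 - ρ)) ∧
        ∀ x : Fin k → ℝ, x ∉ E → (∀ j, 0 < x j) →
          ∀ (r W : ℕ) (w : Fin r → List (ℕ × (Fin k → ℕ))), (∀ l, Pattern (w l)) →
            (∀ l, (fixedPart (w l)).sum ≤ W) → ∀ C : ℝ, 1 ≤ C → ∃ i₀ : ℕ, ∀ i : ℕ, i₀ ≤ i →
              ∀ s : Fin k → ℕ, (∀ j, |(s j : ℝ) - x j * v i| ≤ (v i) ^ ρ) →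
                ∀ (n : ℕ) (c : Fin r → ℤ), (∀ l, |(c l : ℝ)| ≤ C ^ (v i)) →
                  (∀ l, c l ≠ 0 → (index s (w l)).sum = n) → ∑ l, (c l : ℝ) * mzv (index s (w l)) = 0 →
                  ∀ (A : Type) [CommRing A] (Z : List ℕ → A), HasStuffleProduct Z → HasLinearRelations W Z →
                    ∑ l, (c l : A) * Z (index s (w l)) = 0) ∧
    (∀ (A : Type) [CommRing A] [Algebra ℚ A] (Z : List ℕ → A), Z [2, 1] = Z [3] →
      4 * Z [3, 1] = Z [4] → 4 * Z [2, 2] = 3 * Z [4] → Z [2, 1, 1] = Z [4] → HasLinearRelations 4 Z) ∧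
    (∀ a : ℝ, 0 < a → ExpLe (fun n : ℕ => ((n : ℝ) + 1) ^ a) (1 / a)) ∧
    (∀ b : ℝ, 1 < b → ExpLe (fun n : ℕ => b ^ n) 0) := by
  refine ⟨fun k hk v τ ρ hv hτ hE hρ => ?_, FixedPrefixRelations.result.2,
    fun κ hκ => Pool.Agent.Y854.GM.expLe_pow κ hκ, fun b hb => Pool.Agent.Y854.GM.expLe_geom b hb⟩
  have key : ∀ z : (r : ℕ) × ℕ × (Fin r → List (ℕ × (Fin k → ℕ))), ∃ E : Set (Fin k → ℝ),
      dimH E ≤ ENNReal.ofReal (((k : ℝ) - 1 + τ) / (1 - ρ)) ∧
      ((∀ l, Pattern (z.2.2 l)) → (∀ l, (fixedPart (z.2.2 l)).sum ≤ z.2.1) →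
        ∀ x : Fin k → ℝ, x ∉ E → (∀ j, 0 < x j) → ∀ C : ℝ, 1 ≤ C → ∃ i₀ : ℕ, ∀ i : ℕ, i₀ ≤ i → ∀ s : Fin k → ℕ,
          (∀ j, |(s j : ℝ) - x j * v i| ≤ (v i) ^ ρ) → ¬ Exceptional z.2.1 (C ^ (v i)) z.2.2 s) := by
    rintro ⟨r, W, w⟩
    dsimp only
    by_cases hw : (∀ l, Pattern (w l)) ∧ ∀ l, (fixedPart (w l)).sum ≤ W
    · obtain ⟨E, h1, h2⟩ := Pool.Agent.X174.winInd hk (fun H s => Exceptional W H w s)
        (fun H H' s hH ⟨n, c, hc, h3⟩ => ⟨n, c, fun l => (hc l).trans hH, h3⟩)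
        (fun κ => FixedPrefixRelations.result.1 k r κ W w hw.1 hw.2) hv hτ hE hρ
      exact ⟨E, h1, fun _ _ => h2⟩
    · exact ⟨∅, by simp, fun h h' => absurd ⟨h, h'⟩ hw⟩
  choose Es h1 h2 using key
  refine ⟨⋃ z, Es z, ?_, fun x hx hx0 r W w hw hW C hC => ?_⟩
  · rw [dimH_iUnion]
    exact iSup_le h1
  · obtain ⟨i₀, hi₀⟩ := h2 ⟨r, W, w⟩ hw hW x (fun hm => hx (Set.mem_iUnion.2 ⟨_, hm⟩)) hx0 C hC
    refine ⟨i₀, fun i hi s hs n c hc hcn hsum A _ Z hZ hZW => ?_⟩
    by_contra hne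
    exact hi₀ i hi s hs ⟨n, c, hc, hcn, hsum, A, inferInstance, Z, hZ, hZW, hne⟩

end Pool.Agent.Results.MP_154526_nt.IndicesInCubes
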